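import Pool.Agent.helper82.LEQ.Spec

/-!
# LEQ (MP_e82547_al): row NF
-/

set_option autoImplicit false

namespace LEQ

open QS (Lef EAb)

/-- different indices give different subgroups -/
theorem NF_inj {G : Type} [Group G] [Finite G] {p : ℕ} (hp : p.Prime) {ι : Type}
    {L : ι → Subgroup G} (hF : Fam L p) (i j : ι) (h : L i = L j) : i = j := by
  by_contra hij
  have h1 : L i = ⊥ := by
    rw [Subgroup.eq_bot_iff_forall]
    intro x hx
    refine hF.cent i x hx (fun y hy => ?_)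
    exact hF.comm i j hij x hx y (h ▸ hy)
  have h2 := hF.dvd i
  rw [h1, Subgroup.card_bot] at h2
  exact hp.one_lt.ne' (Nat.dvd_one.mp h2)

/-- NF -/
theorem NF (h1 : AC_stmt) : NF_stmt := by
  intro G _ _ p hp ι _ L hF
  obtain ⟨_, _, _, _, _, a6, _⟩ := h1 G p hp ι L hF
  refine ⟨⟨fun g hg x => ?_⟩, NF_inj hp hF, fun x i j j' hj hj' => ?_⟩
  · rcases isEmpty_or_nonempty ι with hι | ⟨⟨i⟩⟩
    · exact fun i => (hι.false i).elim
    · obtain ⟨j, hj⟩ := hF.perm x i
      exact (a6 i j x hj g hg).1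
  · apply NF_inj hp hF
    apply Subgroup.ext
    intro y
    have h2 := hj (x⁻¹ * y * x)
    have h3 := hj' (x⁻¹ * y * x)
    have h4 : x * (x⁻¹ * y * x) * x⁻¹ = y := by group
    rw [h4] at h2 h3
    exact h2.symm.trans h3

end LEQ
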